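import Pool.Agent.H67.Sof4

open Pool.Agent.H67.Sof

theorem Pool.Agent.Results.MP_6908e1_al.NonSofic.result :
    ∃ (M N : Type) (_ : Monoid M) (_ : Monoid N) (ρ : M → N),
      JUnits M ∧ JUnits N ∧ Function.Bijective ρ ∧
      (∃ θ : Mˣ ≃* Nˣ, ∀ u : Mˣ, ρ (u : M) = (θ u : N)) ∧
      (∀ (s : M) (t : Mˣ), ρ (s * (t : M)) = ρ s * ρ (t : M)) ∧
      Sofic M ∧ ¬ Sofic N := by
  refine ⟨RZ (Tr GZ OZ), Tr GZ OZ, inferInstance, inferInstance, RZ.v, RZ.junits, Tr.junits,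
    ⟨fun _ _ h => RZ.ext h, fun y => ⟨⟨y⟩, rfl⟩⟩,
    ⟨(MulEquiv.ofBijective RZ.upHom RZ.up_bij).symm, fun u => ?_⟩, fun s t => ?_,
    Tr.sofic_RZ approx, main_not_sofic⟩
  · obtain ⟨w, rfl⟩ := (MulEquiv.ofBijective RZ.upHom RZ.up_bij).surjective u
    rw [MulEquiv.symm_apply_apply]
    rfl
  · rw [RZ.mul_v, if_pos ((RZ.isUnit_iff _).1 t.isUnit)]
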